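import Pool.Agent.Work.MP_223b32_FY.Interface

/-!
# Block GRP (MP_223b32_ag): finite groups with an alternating quotient
-/

set_option autoImplicit false

namespace Pool.Agent.Work.FY

/-- a normal subgroup of small index maps onto a group containing the alternating group -/
theorem GRP.ker_map {G X : Type} [Group G] [Finite G] [Fintype X] [DecidableEq X]
    (φ : G →* Equiv.Perm X) (h5 : 5 ≤ Fintype.card X) (hA : alternatingGroup X ≤ φ.range)
    (m : ℕ) (ψ : G →* Equiv.Perm (Fin m)) (hm : m < Fintype.card X) :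
    alternatingGroup X ≤ ψ.ker.map φ := by
  have hnon : Nontrivial X := Fintype.one_lt_card_iff_nontrivial.mp (by omega)
  -- the intersection with the alternating group is normal in it
  have hnormal : ((ψ.ker.map φ).subgroupOf (alternatingGroup X)).Normal := by
    constructor
    rintro ⟨n, hn⟩ hn' ⟨a, ha⟩
    rw [Subgroup.mem_subgroupOf] at hn' ⊢
    obtain ⟨g, hg⟩ := hA ha
    obtain ⟨p, hp, hp'⟩ := hn'
    refine ⟨g * p * g⁻¹, ?_, ?_⟩
    · have : (ψ.ker).Normal := inferInstance
      exact this.conj_mem p hp g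
    · simp only [map_mul, map_inv, hg, hp']
      rfl
  have h5' : 5 ≤ Nat.card X := by rwa [Nat.card_eq_fintype_card]
  rcases alternatingGroup.normal_subgroup_eq_bot_or_eq_top h5'
    (N := (ψ.ker.map φ).subgroupOf (alternatingGroup X)) with h | h
  · exfalso
    -- the image of the kernel has at most two elements
    have h2 : Nat.card (ψ.ker.map φ) ≤ 2 := by
      have hinj : Function.Injective (fun x : ψ.ker.map φ => Equiv.Perm.sign (x : Equiv.Perm X)) := by
        intro x y hxy
        simp only at hxy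
        have h3 : (x * y⁻¹ : ψ.ker.map φ).1 ∈ alternatingGroup X := by
          rw [Equiv.Perm.mem_alternatingGroup]
          simp [hxy]
        have h4 : (⟨(x * y⁻¹ : ψ.ker.map φ).1, h3⟩ : alternatingGroup X) ∈
            (ψ.ker.map φ).subgroupOf (alternatingGroup X) := by
          rw [Subgroup.mem_subgroupOf]
          exact (x * y⁻¹).2
        rw [h, Subgroup.mem_bot] at h4
        have h5 : (x * y⁻¹ : ψ.ker.map φ).1 = 1 := congrArg Subtype.val h4
        have h6 : (x * y⁻¹ : ψ.ker.map φ) = 1 := Subtype.ext h5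
        exact mul_inv_eq_one.mp h6
      have := Nat.card_le_card_of_injective _ hinj
      simpa [Nat.card_eq_fintype_card] using this
    -- the range is covered by the translates
    have hsurj : Function.Surjective (fun c : (G ⧸ ψ.ker) × (ψ.ker.map φ) =>
        (⟨φ c.1.out * c.2.1, by
          obtain ⟨p, hp, hp'⟩ := c.2.2
          exact ⟨c.1.out * p, by rw [map_mul, hp']⟩⟩ : φ.range)) := by
      rintro ⟨_, g, rfl⟩
      obtain ⟨k, hk⟩ := QuotientGroup.mk_out_eq_mul ψ.ker g
      refine ⟨⟨(g : G ⧸ ψ.ker), ⟨φ (k.1⁻¹), ⟨k.1⁻¹, ψ.ker.inv_mem k.2, rfl⟩⟩⟩, ?_⟩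
      apply Subtype.ext
      simp only
      rw [hk, ← map_mul]
      simp
    have h3 : Nat.card φ.range ≤ Nat.card (G ⧸ ψ.ker) * Nat.card (ψ.ker.map φ) := by
      rw [← Nat.card_prod]
      exact Nat.card_le_card_of_surjective _ hsurj
    have h4 : Nat.card (G ⧸ ψ.ker) ≤ m.factorial := by
      have e1 : Nat.card (G ⧸ ψ.ker) = Nat.card ψ.range := Subgroup.index_ker ψ
      rw [e1]
      refine (Subgroup.card_le_card_group ψ.range).trans ?_
      rw [Nat.card_perm, Nat.card_eq_fintype_card, Fintype.card_fin]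
    have h6 : Nat.card (alternatingGroup X) ≤ Nat.card φ.range :=
      Nat.card_le_card_of_injective _ (Subgroup.inclusion_injective hA)
    have h7 := two_mul_nat_card_alternatingGroup (α := X)
    rw [Nat.card_perm, Nat.card_eq_fintype_card (α := X)] at h7
    obtain ⟨n, hn⟩ : ∃ n, Fintype.card X = n + 1 := ⟨Fintype.card X - 1, by omega⟩
    rw [hn, Nat.factorial_succ] at h7
    have h8 : m.factorial ≤ n.factorial := Nat.factorial_le (by omega)
    have h9 : Nat.card φ.range ≤ n.factorial * 2 :=
      h3.trans (Nat.mul_le_mul (h4.trans h8) h2)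
    have h10 : 0 < n.factorial := Nat.factorial_pos n
    have h11 : (n + 1) * n.factorial ≤ 4 * n.factorial := by
      calc (n + 1) * n.factorial = 2 * Nat.card (alternatingGroup X) := h7.symm
        _ ≤ 2 * (n.factorial * 2) := by gcongr; exact h6.trans h9
        _ = 4 * n.factorial := by ring
    have h12 := Nat.le_of_mul_le_mul_right h11 h10
    omega
  · exact Subgroup.subgroupOf_eq_top.mp h

theorem GRP.sq_map {G X : Type} [Group G] [Finite G] [Fintype X] [DecidableEq X]
    (φ : G →* Equiv.Perm X) (h5 : 5 ≤ Fintype.card X) (hA : alternatingGroup X ≤ φ.range)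
    (m : ℕ) (ψ : G →* Equiv.Perm (Fin m)) (hm : m < Fintype.card X) (N : Subgroup G)
    (hN : ∀ σ, ψ σ = 1 → σ ^ 2 ∈ N) :
    alternatingGroup X ≤ N.map φ := by
  have h1 := GRP.ker_map φ h5 hA m ψ hm
  rw [← Equiv.Perm.closure_three_cycles_eq_alternating, Subgroup.closure_le]
  intro s hs
  have hs' : Equiv.Perm.IsThreeCycle s := hs
  have h2 : s⁻¹ ∈ alternatingGroup X := inv_mem hs'.mem_alternatingGroup
  obtain ⟨p, hp, hp'⟩ := h1 h2
  refine ⟨p ^ 2, hN p hp, ?_⟩
  rw [map_pow, hp']
  have h3 : s ^ 3 = 1 := by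
    rw [← hs'.orderOf]
    exact pow_orderOf_eq_one s
  calc s⁻¹ ^ 2 = s⁻¹ ^ 2 * s ^ 3 := by rw [h3, mul_one]
    _ = s := by group

theorem stmt_GRP : Stmt_GRP := by
  intro G X _ _ _ _ φ h5 hA I S N hN x
  classical
  have h5' : 5 ≤ Nat.card X := by rwa [Nat.card_eq_fintype_card]
  have key : ∀ T : Finset I, T ⊆ S → ∃ M : Subgroup G, M.Normal ∧ (∀ i ∈ T, M ≤ N i) ∧
      alternatingGroup X ≤ M.map φ := by
    intro T
    induction T using Finset.induction_on with
    | empty =>
      intro _
      refine ⟨⊤, inferInstance, by simp, ?_⟩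
      rwa [← MonoidHom.range_eq_map]
    | insert j T hj ih =>
      intro hT
      obtain ⟨M, hM, hMN, hMA⟩ := ih (fun i hi => hT (Finset.mem_insert_of_mem hi))
      obtain ⟨hNj, m, ψ, hm, hψ⟩ := hN j (hT (Finset.mem_insert_self _ _))
      have h1 := GRP.sq_map φ h5 hA m ψ hm (N j) hψ
      refine ⟨M ⊓ N j, inferInstance, ?_, ?_⟩
      · intro i hi
        rw [Finset.mem_insert] at hi
        rcases hi with rfl | hi
        · exact inf_le_right
        · exact inf_le_left.trans (hMN i hi)
      · calc alternatingGroup X = ⁅alternatingGroup X, alternatingGroup X⁆ :=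
              (commutator_alternatingGroup_eq_self h5').symm
          _ ≤ ⁅M.map φ, (N j).map φ⁆ := Subgroup.commutator_mono hMA h1
          _ = ⁅M, N j⁆.map φ := (Subgroup.map_commutator M (N j) φ).symm
          _ ≤ (M ⊓ N j).map φ := Subgroup.map_mono (Subgroup.commutator_le_inf M (N j))
  obtain ⟨M, _, hMN, hMA⟩ := key S subset_rfl
  -- a three cycle which moves `x`
  obtain ⟨y, hy⟩ : ∃ y : X, y ≠ x := by
    have : Nontrivial X := Fintype.one_lt_card_iff_nontrivial.mp (by omega)
    exact exists_ne x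
  obtain ⟨z, hz⟩ : ∃ z : X, z ∉ ({x, y} : Finset X) := by
    by_contra hcon
    push Not at hcon
    have h1 : (Finset.univ : Finset X) ⊆ {x, y} := fun z _ => hcon z
    have h2 := Finset.card_le_card h1
    have h3 : ({x, y} : Finset X).card ≤ 2 := Finset.card_le_two
    rw [Finset.card_univ] at h2
    omega
  rw [Finset.mem_insert, Finset.mem_singleton, not_or] at hz
  have h3c : Equiv.Perm.IsThreeCycle (Equiv.swap x y * Equiv.swap x z) :=
    Equiv.Perm.isThreeCycle_swap_mul_swap_same hy.symm (Ne.symm hz.1) (Ne.symm hz.2)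
  obtain ⟨τ, hτ, hτ'⟩ := hMA h3c.mem_alternatingGroup
  refine ⟨τ, fun i hi => hMN i hi hτ, ?_⟩
  rw [hτ', Equiv.Perm.mul_apply, Equiv.swap_apply_left, Equiv.swap_apply_of_ne_of_ne hz.1 hz.2]
  exact hz.1

end Pool.Agent.Work.FY
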